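import Pool.Agent.Helper140_T3.Wr2
import Pool.Agent.Helper140_T3.Gr3
import Pool.Agent.Helper140_T3.Bs
import Pool.Agent.Helper140_T3.Gr4

/-!
# Groups of exponent `3 m`: the action on soluble normal subgroups without `3'`-parts

Outline.  Let `m` be prime to `3`, let `G` have exponent `3 m` and let `N` be as in the theorem.

1. Let `V` be an abelian normal subgroup (or section) of exponent `3` and `g ∈ G` with
`g ^ 3 ∈ C_G(V)`.  The identity for `v g`, `v ∈ V`, gives `1 + g + g ^ 2 = 0` on `V`, that is
`(g - 1) ^ 2 = 0`.  So one has a group `Γ` of units of a ring `R` with `3 = 0`, of exponent `3 m`,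
such that `(a - 1) ^ 2 = 0` for all `a ∈ Γ` with `a ^ 3 = 1` (files `Gr`, `Gr2`).
2. Let `a, b` be such elements, `A = a - 1`, `B = b - 1`, `T = A B + B A`.  Then `T` commutes with
`A` and `B`, and it is algebraic over the prime field as `T = a b + (a b)⁻¹ + 1`; so `⟨a, b⟩` is
finite (`Fi`).  If `T` is not nilpotent, its minimal polynomial is `p r` with `p` irreducible and
`p ≠ X`; let `K` be the field `F₃[X] / (p)` and `l ≠ 0` the image of `X`.  There is an additive
embedding of `K ^ 2` in `R` on which left multiplication by `a` and `b` is given by the matrices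
`(1 l; 0 1)` and `(1 0; 1 1)` (`Tr`).  Let `H` be the group generated by these matrices.  Some
`h ∈ H` has `h₀₀ = 0`: otherwise the second matrix permutes the vectors `x h e₁`, `x ∈ Kˣ`, `h ∈ H`,
without fixed points and the first one fixes `|K| - 1` of them, but both numbers have the same
residue modulo `3`.  As `H` is normalised by `diag(1, -1)`, such an `h` yields an element of `H`
whose square is `-1` (`Sl`).  Now `H` is a homomorphic image of `⟨a, b⟩`.  If a Sylow `2`-subgroup `S`
of `H` is abelian, the transfer of `H` into `S` is not trivial, since it maps the central element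
`-1` to itself; but `H` is generated by elements of order `3`, a contradiction (`Fi`).  If `S` is not
abelian, there are `x, y ∈ S` with `1 ≠ [x, y]` central in `S`, and after replacing `x` by a power
`[x, y] = -1` and `x ^ 2 = y ^ 2 = -1`, so that `S` contains a quaternion group of order `8`, which
is excluded by the hypothesis in (3) (`Qa`, `Tr3`, `Gr4`).  So `T` is nilpotent,
`(a b - 1) ^ 2 = T a b`, and `(a b) ^ 3 = 1`, since `9` does not divide `3 m` (`Gr2`).
3. Let `P` be the largest normal subgroup of `G` of exponent `3` in `N`.  Then `C = C_N(P) ≤ P`: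
otherwise there is a normal subgroup `A ≤ C` of `G`, `A ≰ P`, such that `A / (A ∩ P)` has exponent
`3` or `m` (if `N` is soluble, from the last term of the derived series of `C` that is not in `P`,
and otherwise by the starting theorem `TwoGenerators`).  In the second case the transfer of the
finite groups `⟨x, y⟩`, `x, y ∈ A`, into their centres shows that the `x ∈ A` with `x ^ m = 1` form a
normal subgroup, which is trivial by assumption.  So `A` has exponent `3` and `A ≤ P`, a
contradiction (`Cn`).
4. A group of exponent `3` is metabelian.  Step 2 is applied to the action on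
`P / P' × P'`.  The elements which act trivially on the factors of `P ≥ P' ≥ 1` or of `N ≥ C ≥ 1`
have a cube which centralises `P` or `N`; so the kernel of this action is a `3`-group modulo
`C_G(N)`, it is locally finite, and finite `2`-subgroups can be lifted (`Gr2`, `Gr3`).
5. Part (2) of the theorem: if `(a b) ^ 3 = 1` then `T a b = (a b - 1) ^ 2 = 0` and `A B = - B A`,
and if `(a b⁻¹) ^ 3 = 1` then `T a b⁻¹ = - (a b⁻¹ - 1) ^ 2 = 0` and again `A B = - B A`.  If this
holds for any two conjugates of `a`, their commutators `[a, b] = 1 + 2 A B` are in the centre of the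
normal closure of `a`, which is nilpotent of class at most `2` and has exponent `3` (`Bs`).
6. The converse in part (4): the wreath product of the group of order `3` and a group `H` of exponent
`m` has exponent `3 m`, and its base `N` is abelian with `C_G(N) = N` (`Wr`, `Wr2`).
7. Part (5): a group of exponent `2 ^ k` whose finite subgroups are abelian is abelian, by induction
on `k`: any two involutions generate a finite group, so they commute (`Tp`).
-/

set_option autoImplicit false

namespace Pool.Agent.Results.MP_544bd1_al.ElementsOfOrderThree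

open Pool.Agent.Helper140_E5 Pool.Agent.Helper140_T12 Pool.Agent.Helper140_T3
open scoped commutatorElement

universe u

/-- `G` is locally finite: its finitely generated subgroups are finite. -/
def LocallyFinite (G : Type u) [Group G] : Prop :=
  ∀ S : Set G, S.Finite → Finite (Subgroup.closure S)

/-- The only normal subgroup `L` of `G` with `L ≤ N` and `x ^ m = 1` for all `x ∈ L` is `1`. -/
def Free (m : ℕ) {G : Type u} [Group G] (N : Subgroup G) : Prop :=
  ∀ L : Subgroup G, L.Normal → L ≤ N → (∀ x ∈ L, x ^ m = 1) → L = ⊥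

/-- `N` is soluble, or: `m` is divisible by the squares of at most two odd primes and by no number
`2 ^ k (2 ^ k - 1) ^ 2`, `k ≥ 3`, and the two-generator subgroups of `N` are finite and soluble. -/
def Good (m : ℕ) {G : Type u} [Group G] (N : Subgroup G) : Prop :=
  Group.IsSolvable N ∨
    ((∃ p q : ℕ, ∀ r : ℕ, r.Prime → r ≠ 2 → r ^ 2 ∣ m → r = p ∨ r = q) ∧
      (∀ k : ℕ, 3 ≤ k → ¬ 2 ^ k * (2 ^ k - 1) ^ 2 ∣ m) ∧
      ∀ x ∈ N, ∀ y ∈ N, Finite (Subgroup.closure ({x, y} : Set G)) ∧
        Group.IsSolvable (Subgroup.closure ({x, y} : Set G)))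

/-- `m` is not divisible by `4`, or all finite `2`-subgroups of `G` are abelian. -/
def AbelianTwo (m : ℕ) (G : Type u) [Group G] : Prop :=
  ¬ 4 ∣ m ∨ ∀ Q : Subgroup G, Finite Q → IsPGroup 2 Q → ∀ x ∈ Q, ∀ y ∈ Q, x * y = y * x

/-- Any two elements of `Q` of order dividing `3` generate a finite subgroup. -/
def PairsFinite (Q : Type u) [Group Q] : Prop :=
  ∀ x y : Q, x ^ 3 = 1 → y ^ 3 = 1 → Finite (Subgroup.closure ({x, y} : Set Q))

/-- If `x ^ 3 = 1` and, for each `g` in `Q`, the product of `x` and `g x g⁻¹` or the product of `x`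
and `g x⁻¹ g⁻¹` has order dividing `3`, then `y ^ 3 = 1` for all `y` in the normal closure of `x` in
`Q`. -/
def BaerSuzuki (Q : Type u) [Group Q] : Prop :=
  ∀ x : Q, x ^ 3 = 1 → (∀ g : Q, (x * (g * x * g⁻¹)) ^ 3 = 1 ∨ ⁅x, g⁆ ^ 3 = 1) →
    ∀ y ∈ Subgroup.normalClosure ({x} : Set Q), y ^ 3 = 1

/-- The elements of `Q` of order dividing `3` form a normal subgroup. -/
def NormalThree (Q : Type u) [Group Q] : Prop :=
  ∃ X : Subgroup Q, X.Normal ∧ ∀ x, x ∈ X ↔ x ^ 3 = 1

/-- `m` is not divisible by `4`, or no finite `2`-subgroup of `G` has the quaternion group of order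
`8` as a homomorphic image. -/
def QuaternionFree (m : ℕ) (G : Type u) [Group G] : Prop :=
  ¬ 4 ∣ m ∨ ∀ S : Subgroup G, Finite S → IsPGroup 2 S →
    ∀ φ : S →* QuaternionGroup 2, ¬ Function.Surjective φ

theorem twoAb_of {m : ℕ} {G : Type u} [Group G] (hG : ∀ x : G, x ^ (3 * m) = 1)
    (h : AbelianTwo m G) : TwoAb G := by
  rcases h with h | h
  · refine twoAb_of_not (n := 3 * m) (fun h1 => h ?_) hG
    exact (Nat.Coprime.dvd_mul_left (by norm_num : Nat.Coprime 4 3)).1 h1
  · exact h

theorem qFree_of {m : ℕ} {G : Type u} [Group G] (hG : ∀ x : G, x ^ (3 * m) = 1)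
    (h : QuaternionFree m G) : QFree G := by
  rcases h with h | h
  · exact QFree.of_twoAb (twoAb_of hG (Or.inl h))
  · exact h

theorem cen_good {m : ℕ} (h3 : ¬ 3 ∣ m) {G : Type u} [Group G]
    (hG : ∀ x : G, x ^ (3 * m) = 1) {N : Subgroup G} (hN : N.Normal) (hg : Good m N)
    (hf : Free m N) : ∃ P : Subgroup G, P.Normal ∧ P ≤ N ∧ (∀ x ∈ P, x ^ 3 = 1) ∧
      N ⊓ Subgroup.centralizer (P : Set G) ≤ P := by
  rcases hg with hs | ⟨⟨p, q, hpq⟩, h2, h⟩
  · exact cen_sol h3 hG hN hs hf
  · have hm : m ≠ 0 := by
      rintro rfl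
      exact h3 (dvd_zero 3)
    have h9 : ¬ 9 ∣ 3 * m := by
      intro h
      exact h3 ((Nat.mul_dvd_mul_iff_left (by norm_num : 0 < 3)).1 (by simpa using h))
    have T : Pool.Agent.TH69.Og.TrS (3 * m) := Pool.Agent.TH69.Ok.trS' (by omega) ⟨by
      intro k hk hd
      have h5 : ¬ 3 ∣ 2 ^ k - 1 := by
        intro h6
        apply h9
        have h7 : 3 ^ 2 ∣ (2 ^ k - 1) ^ 2 := pow_dvd_pow_of_dvd h6 2
        exact (by simpa using h7 : 9 ∣ (2 ^ k - 1) ^ 2).trans ((Dvd.intro_left _ rfl).trans hd)
      have hk3 : 3 ≤ k := by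
        rcases Nat.eq_or_lt_of_le hk with h6 | h6
        · exfalso
          apply h5
          rw [← h6]
          norm_num
        · exact h6
      apply h2 k hk3
      refine Nat.Coprime.dvd_of_dvd_mul_left (m := 3) ?_ hd
      have h6 : Nat.Coprime (2 ^ k - 1) 3 :=
        ((Nat.Prime.coprime_iff_not_dvd Nat.prime_three).2 h5).symm
      exact Nat.Coprime.mul_left (Nat.Coprime.pow_left k (by norm_num)) (h6.pow_left 2), p, q, by
      intro r hr hr2 hd
      refine hpq r hr hr2 ?_
      have hr3 : r ≠ 3 := by
        rintro rfl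
        exact h9 (by simpa using hd)
      exact Nat.Coprime.dvd_of_dvd_mul_left
        (Nat.Coprime.pow_left 2 ((Nat.coprime_primes hr Nat.prime_three).2 hr3)) hd⟩
    exact cen_loc h3 hG T hN (fun x hx y hy => (h x hx y hy).1) (fun x hx y hy => (h x hx y hy).2)
      hf

theorem exists_X {m : ℕ} (h3 : ¬ 3 ∣ m) {G : Type u} [Group G]
    (hG : ∀ x : G, x ^ (3 * m) = 1) {N : Subgroup G} [hN : N.Normal] (hg : Good m N)
    (hf : Free m N) (hab : QFree (G ⧸ Subgroup.centralizer (N : Set G))) :
    ∃ X : Subgroup G, X.Normal ∧ ∀ x, x ∈ X ↔ x ^ 3 ∈ Subgroup.centralizer (N : Set G) := by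
  obtain ⟨P, hP, hPN, hP3, hc⟩ := cen_good h3 hG hN hg hf
  have hC : (Subgroup.centralizer (N : Set G)).Normal := inferInstance
  refine ⟨{ carrier := {x | x ^ 3 ∈ Subgroup.centralizer (N : Set G)}
            one_mem' := by
              change (1 : G) ^ 3 ∈ Subgroup.centralizer (N : Set G)
              rw [one_pow]
              exact one_mem _
            mul_mem' := fun {x y} hx hy => core_mul_q h3 hG hP hPN hP3 hc hab hx hy
            inv_mem' := fun {x} hx => by
              change x⁻¹ ^ 3 ∈ Subgroup.centralizer (N : Set G)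
              rw [inv_pow]
              exact inv_mem hx }, ⟨fun x hx g => ?_⟩, fun x => Iff.rfl⟩
  change (g * x * g⁻¹) ^ 3 ∈ Subgroup.centralizer (N : Set G)
  rw [conj_pow]
  exact hC.conj_mem _ hx g

/-- `G` satisfies `x ^ (3 m) = 1`, `N` is `Good` (for instance soluble), and `N` contains no
nontrivial normal subgroup of `G` of exponent dividing `m`. -/
def Admissible (m : ℕ) {G : Type u} [Group G] (N : Subgroup G) : Prop :=
  (∀ x : G, x ^ (3 * m) = 1) ∧ Good m N ∧ Free m N

/-- Let `m` be prime to `3`, `G` a group with `x ^ (3 m) = 1` for all `x`, and `N` a normal subgroup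
of `G` which contains no nontrivial normal subgroup of `G` of exponent dividing `m`, for instance a
soluble one (or see `Good`).  Let `Q = G / C_G(N)`.

(1) Any two elements of `Q` of order `3` generate a finite subgroup.

(2) If `x ^ 3 = 1` and, for each `g` in `Q`, the element `x g x g⁻¹` or the commutator `x g x⁻¹ g⁻¹`
has order dividing `3`, then the normal closure of `x` in `Q` has exponent dividing `3`.

(3) If `4` does not divide `m`, or no finite `2`-subgroup of `Q` has a quaternion factor group of
order `8`, then the elements of `Q` of order dividing `3` form a normal subgroup `X` (so `Q / X` has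
exponent dividing `m`).

(4) `Q` is locally finite for all `G` and `N` as in (3), if and only if all groups of exponent
dividing `m` (whose finite `2`-subgroups have no quaternion factor group of order `8`, if `4` divides
`m`) are locally finite.

(5) If `m` is a power of `2` and the finite `2`-subgroups of `Q` are abelian (or `4` does not divide
`m`), then `Q / X` is abelian and `Q` is locally finite. -/
theorem result (m : ℕ) (h3 : ¬ 3 ∣ m) :
    (∀ (G : Type u) [Group G] (N : Subgroup G) [N.Normal], Admissible m N →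
      PairsFinite (G ⧸ Subgroup.centralizer (N : Set G)) ∧
      BaerSuzuki (G ⧸ Subgroup.centralizer (N : Set G)) ∧
      (QuaternionFree m (G ⧸ Subgroup.centralizer (N : Set G)) →
        NormalThree (G ⧸ Subgroup.centralizer (N : Set G)))) ∧
    ((∀ (G : Type u) [Group G] (N : Subgroup G) [N.Normal], Admissible m N →
      QuaternionFree m (G ⧸ Subgroup.centralizer (N : Set G)) →
      LocallyFinite (G ⧸ Subgroup.centralizer (N : Set G))) ↔
      ∀ (H : Type u) [Group H], (∀ x : H, x ^ m = 1) → QuaternionFree m H → LocallyFinite H) ∧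
    ((∃ k : ℕ, m = 2 ^ k) →
      ∀ (G : Type u) [Group G] (N : Subgroup G) [N.Normal], Admissible m N →
      AbelianTwo m (G ⧸ Subgroup.centralizer (N : Set G)) →
      (∀ x y : G ⧸ Subgroup.centralizer (N : Set G), ⁅x, y⁆ ^ 3 = 1) ∧
      LocallyFinite (G ⧸ Subgroup.centralizer (N : Set G))) := by
  have hGC : ∀ (G : Type u) [Group G] (C : Subgroup G) [C.Normal], (∀ x : G, x ^ (3 * m) = 1) →
      ∀ x : G ⧸ C, x ^ (3 * m) = 1 := by
    intro G _ C _ hG x
    obtain ⟨x, rfl⟩ := QuotientGroup.mk_surjective x
    rw [← QuotientGroup.mk_pow, hG, QuotientGroup.mk_one]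
  have hXm : ∀ (G : Type u) [Group G] (C X : Subgroup G), (∀ x : G, x ^ (3 * m) = 1) →
      (∀ x, x ∈ X ↔ x ^ 3 ∈ C) → ∀ x : G, x ^ m ∈ X := by
    intro G _ C X hG hX3 x
    rw [hX3, ← pow_mul, mul_comm m 3, hG]
    exact one_mem _
  refine ⟨?_, ⟨?_, ?_⟩, ?_⟩
  · rintro G _ N hN ⟨hG, hg, hf⟩
    obtain ⟨P, hP, hPN, hP3, hc⟩ := cen_good h3 hG hN hg hf
    refine ⟨?_, ?_, ?_⟩
    · intro x y hx hy
      obtain ⟨x, rfl⟩ := QuotientGroup.mk_surjective x
      obtain ⟨y, rfl⟩ := QuotientGroup.mk_surjective y
      rw [← QuotientGroup.mk_pow, QuotientGroup.eq_one_iff] at hx hy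
      have h1 := core_theta h3 hG hP hPN hP3 hc hx hy
      rw [MonoidHom.map_closure, Set.image_pair] at h1
      exact h1
    · intro x hx hxg y hy
      obtain ⟨x, rfl⟩ := QuotientGroup.mk_surjective x
      rw [← QuotientGroup.mk_pow, QuotientGroup.eq_one_iff] at hx
      have h1 : Subgroup.normalClosure
          ({(QuotientGroup.mk x : G ⧸ Subgroup.centralizer (N : Set G))} : Set _) =
          (Subgroup.normalClosure ({x} : Set G)).map
            (QuotientGroup.mk' (Subgroup.centralizer (N : Set G))) := by
        rw [Subgroup.map_normalClosure _ _ (QuotientGroup.mk'_surjective _), Set.image_singleton]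
        rfl
      rw [h1] at hy
      obtain ⟨y, hy, rfl⟩ := hy
      rw [← map_pow]
      refine (QuotientGroup.eq_one_iff _).2 (core_bs h3 hG hP hPN hP3 hc hx (fun g => ?_) hy)
      rcases hxg (QuotientGroup.mk g) with h2 | h2
      · left
        rw [← QuotientGroup.eq_one_iff]
        exact h2
      · right
        rw [← QuotientGroup.eq_one_iff]
        exact h2
    · intro hab
      obtain ⟨X, hX, hX3⟩ := exists_X h3 hG hg hf (qFree_of (hGC G _ hG) hab)
      refine ⟨X.map (QuotientGroup.mk' _), hX.map _ (QuotientGroup.mk'_surjective _), fun x => ?_⟩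
      obtain ⟨x, rfl⟩ := QuotientGroup.mk_surjective x
      rw [← QuotientGroup.mk_pow, QuotientGroup.eq_one_iff, ← hX3]
      constructor
      · rintro ⟨z, hz, hzx⟩
        have h1 : (QuotientGroup.mk z : G ⧸ Subgroup.centralizer (N : Set G)) =
            QuotientGroup.mk x := hzx
        rw [QuotientGroup.eq] at h1
        have h2 : z⁻¹ * x ∈ X := by
          rw [hX3]
          exact pow_mem h1 3
        have h3 := mul_mem hz h2
        rwa [mul_inv_cancel_left] at h3
      · intro hx
        exact ⟨x, hx, rfl⟩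
  · intro h H _ hH hab
    have hn : (base H).Normal := base_normal H
    refine wr_lf H (h _ (base H) ⟨wr_pow H hH, Or.inl (base_solvable H),
      fun L _ hL hm => base_free H h3 L hL hm⟩ ?_)
    rcases hab with hab | hab
    · exact Or.inl hab
    · exact Or.inr (wr_qfree H hab)
  · rintro h G _ N hN ⟨hG, hg, hf⟩ hab
    have hab' := qFree_of (hGC G _ hG) hab
    obtain ⟨X, hX, hX3⟩ := exists_X h3 hG hg hf hab'
    have hCX : Subgroup.centralizer (N : Set G) ≤ X := by
      intro x hx
      rw [hX3]
      exact pow_mem hx 3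
    refine lf_of_quot hX (fun x hx => (hX3 x).1 hx) hCX (h _ ?_
      (Or.inr (quot_qfree hX (fun x hx => (hX3 x).1 hx) hCX hab')))
    intro x
    obtain ⟨x, rfl⟩ := QuotientGroup.mk_surjective x
    rw [← QuotientGroup.mk_pow, QuotientGroup.eq_one_iff]
    exact hXm G _ X hG hX3 x
  · rintro ⟨k, hk⟩ G _ N hN ⟨hG, hg, hf⟩ hab
    have hab' := twoAb_of (hGC G _ hG) hab
    obtain ⟨X, hX, hX3⟩ := exists_X h3 hG hg hf (QFree.of_twoAb hab')
    have hCX : Subgroup.centralizer (N : Set G) ≤ X := by
      intro x hx
      rw [hX3]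
      exact pow_mem hx 3
    have hq : ∀ x : G ⧸ X, x ^ 2 ^ k = 1 := by
      intro x
      obtain ⟨x, rfl⟩ := QuotientGroup.mk_surjective x
      rw [← QuotientGroup.mk_pow, QuotientGroup.eq_one_iff, ← hk]
      exact hXm G _ X hG hX3 x
    have hcomm := ab_of_pow k (G ⧸ X) hq
      (quot_twoAb hX (fun x hx => (hX3 x).1 hx) hCX hab')
    refine ⟨fun x y => ?_, lf_of_quot hX (fun x hx => (hX3 x).1 hx) hCX
      (lf_comm hcomm (Nat.two_pow_pos k) hq)⟩
    obtain ⟨x, rfl⟩ := QuotientGroup.mk_surjective x
    obtain ⟨y, rfl⟩ := QuotientGroup.mk_surjective y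
    have h1 := hcomm (QuotientGroup.mk' X x) (QuotientGroup.mk' X y)
    rw [← commutatorElement_eq_one_iff_mul_comm, ← map_commutatorElement] at h1
    have h2 : ⁅x, y⁆ ∈ X := (QuotientGroup.eq_one_iff _).1 h1
    rw [hX3] at h2
    have h4 := (QuotientGroup.eq_one_iff (N := Subgroup.centralizer (N : Set G)) _).2 h2
    change QuotientGroup.mk' (Subgroup.centralizer (N : Set G)) (⁅x, y⁆ ^ 3) = 1 at h4
    rw [map_pow, map_commutatorElement] at h4
    exact h4

end Pool.Agent.Results.MP_544bd1_al.ElementsOfOrderThree
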