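import Pool.Agent.Helper140_T12.Lc

/-!
# Groups of exponent twelve: the action on locally finite normal subgroups without `2`-parts

Let `G` be a group of exponent `12` and `V` an abelian normal subgroup (or section) of exponent `3`.
For `g ∈ G` and `h = g ^ 4` the identity gives `1 + h + h ^ 2 = 0` on `V`.  So the group induced on
`V` is a group of units of a ring `R` with `3 = 0` in which `g ^ 8 + g ^ 4 + 1 = 0`, that is
`(g ^ 4 - 1) ^ 2 = 0`, holds for all `g`.  Such groups are shown to be locally finite; nothing is
assumed about the group or the ring apart from this.  (Conversely the theorem contains this, as the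
group acts on the additive group of `R` and the split extension has exponent `12`.)

Outline (`G` is now the group of units).  Let `D` be the set of the `a ∈ G` with `a ^ 3 = 1`; so
`A = a - 1` has square `0`.  For `a, b ∈ D` put `T = A B + B A`; it commutes with `a` and `b`.
1. `a b + (a b)⁻¹ = T - 1`, and the law for `a b` and `a b⁻¹` gives `T ^ 3 = T`.  With the idempotent
`e = -(T ^ 2 + T)` one has `(a b) ^ 6 = 1 + e`, and `u = (a b)⁻³ (b a)³` satisfies
`u ^ 2 = 1 + e`, `(1 - e) u = 1 - e` (file `Pr`).
2. If an involution `z ∈ G` commutes with `a ∈ D` and inverts `d ∈ D` then `A (d - 1) + (d - 1) A = 0`;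
if `z = (a b) ^ 6` inverts `d ∈ D` then `d = 1` (file `Lm`).
3. Let `z = (a b) ^ 6`, `c ∈ D`, `q = c⁻¹ z c z`.  By 2, `q ^ 4 = 1`, and `q ^ 2 = 1 + P` with an
idempotent `P`.  Then `z` commutes with `q ^ 2`; by 2 again `q ^ 2` commutes with `u q ^ 2 u⁻¹`, and
the law for `u q` gives `P = 0`, hence `q = 1` (file `Mn`).  So `(a b) ^ 6` commutes with all
elements of `D`, and therefore `A B + B A` commutes with all elements of `D`.
4. So for `a₁, …, a_k ∈ D` the ring generated by the `A_i` is finite, and the subgroup `X` generated
by `D` is locally finite; `G / X` has exponent `4` and is locally finite by Sanov's theorem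
(file `Fn`).
5. A group of exponent `3` is metabelian (`Ex3`); so a normal subgroup `P` of exponent `3` has a
series of length `2` with abelian factors, and the automorphisms which act trivially on both factors
form an abelian group (`Gp`); so `G / C_G(P)` is locally finite.
6. Let `N` be as in the theorem and `P` the largest normal subgroup of `G` of exponent `3` in `N`.
Then `C = C_N(P) ≤ P` (`cen_lf` in `Lc`): otherwise `C / (C ∩ P)` has a nontrivial characteristic
subgroup `A / (C ∩ P)` of exponent `3` or `4`, by the starting result `TwoGenerators`.  In the second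
case the transfer into the centre shows that the `x ∈ A` with `x ^ 4 = 1` form a normal subgroup,
which is trivial by assumption.  So `A` has exponent `3` and `A ≤ P`, a contradiction.  Now `C_G(P)`
acts trivially on both factors of `N ≥ N ∩ C_G(P) ≥ 1`, and `C_G(P) / C_G(N)` is abelian (`Sp`).
Uniform bounds are obtained by forming cartesian products.
-/

set_option autoImplicit false

namespace Pool.Agent.Results.MP_544bd1_al.NormalSubgroupsTwelve

open Pool.Agent.Helper140_E5 Pool.Agent.Helper140_T12

universe u

/-- `G` is locally finite: its finitely generated subgroups are finite. -/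
def LocallyFinite (G : Type u) [Group G] : Prop :=
  ∀ S : Set G, S.Finite → Finite (Subgroup.closure S)

/-- The only normal subgroup `L` of `G` with `L ≤ N` and `x ^ 4 = 1` for all `x ∈ L` is `1`. -/
def TwoFree {G : Type u} [Group G] (N : Subgroup G) : Prop :=
  ∀ L : Subgroup G, L.Normal → L ≤ N → (∀ x ∈ L, x ^ 4 = 1) → L = ⊥

/-- Let `G` be a group of exponent `12` and `N` a locally finite normal subgroup of `G` which
contains no nontrivial normal subgroup of `G` of exponent dividing `4` (for instance a normal
subgroup of exponent `3`).  Then `G / C_G(N)` is locally finite, and `G` is locally finite if (and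
only if) `C_G(N)` is.  Moreover for each `d` there is an `m`, which depends on `d` only, such that
for every subgroup `H = ⟨a₁, …, a_d⟩` of `G` the centraliser of `N` in `H` has finite index at most
`m` in `H`, and if `H = G` then each element of `N` lies in a normal subgroup of `G` of finite order
at most `m`. -/
theorem result :
    (∀ (G : Type u) [Group G] (N : Subgroup G) [N.Normal],
      (∀ x : G, x ^ 12 = 1) → LocallyFinite N → TwoFree N →
      LocallyFinite (G ⧸ Subgroup.centralizer (N : Set G)) ∧
      (LocallyFinite (Subgroup.centralizer (N : Set G)) → LocallyFinite G)) ∧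
    ∀ d : ℕ, ∃ m : ℕ, ∀ (G : Type u) [Group G] (a : Fin d → G) (N : Subgroup G),
      (∀ x : G, x ^ 12 = 1) → N.Normal → LocallyFinite N → TwoFree N →
      (Subgroup.centralizer (N : Set G)).relIndex (Subgroup.closure (Set.range a)) ≠ 0 ∧
      (Subgroup.centralizer (N : Set G)).relIndex (Subgroup.closure (Set.range a)) ≤ m ∧
      (Subgroup.closure (Set.range a) = ⊤ → ∀ x ∈ N, ∃ L : Subgroup G, L.Normal ∧ x ∈ L ∧
        Finite L ∧ Nat.card L ≤ m) := by
  refine ⟨?_, ?_⟩
  · intro G _ N hN h12 hs h2
    obtain ⟨P, hP, -, h3, hc⟩ := cen_lf h12 hN hs h2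
    have h := core_lfq h12 hN hP h3 hc
    exact ⟨h.lf, lf_crit' h⟩
  · intro d
    obtain ⟨m, hm⟩ := core_unif.{u} d
    refine ⟨m, fun G _ a N h12 hN hs h2 => ?_⟩
    obtain ⟨P, hP, -, h3, hc⟩ := cen_lf h12 hN hs h2
    obtain ⟨h4, h5⟩ := hm G a N P h12 hN hP h3 hc
    refine ⟨core_lfq h12 hN hP h3 hc _ (Set.finite_range a), h4, fun ha x hx => ?_⟩
    have h6 := core_fin h12 hN hP h3 hc (Set.finite_range a) hx
    have h7 := h5 x hx
    rw [ha, cjs_top] at h6 h7
    exact ⟨Subgroup.normalClosure {x}, inferInstance, Subgroup.subset_normalClosure rfl, h6, h7⟩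

end Pool.Agent.Results.MP_544bd1_al.NormalSubgroupsTwelve
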