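import Pool.Agent.Helper140_E5.Hyp4

/-!
# The radical of locally hypercentral elements of a group of exponent five

No local finiteness is assumed.  For a group `G` let `Rad G` be the subgroup of all `x` such that
for every finitely generated subgroup `H` there is a `k` with `[x, h₁, …, h_k] = 1` for all
`h_i ∈ H` (`Radical G` below).

Outline.  1. The main point (`ring_main`, `Uf`, `Grp`; the proof is described in the file
`UnipotentFive`): for abelian normal sections `N / M` of a group of exponent `5` and a
`d`-generator subgroup `H`, `[N, H, …, H] ≤ M` and `H / C_H(N / M)` is finite, with bounds depending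
on `d` only.  Hence there are such bounds for soluble normal subgroups, depending on `d` and the
derived length (`Cns`, `Bd`).
2. The derived length is bounded (`Hyp`): let `G` be a `d`-generator group, `N` a soluble normal
subgroup of derived length `l`, and `M = N^(l-2)`, which is metabelian.  So `G / C_G(M)` is a finite
`5`-group of order at most `m = m(d, 2)`, hence `G^(m) ≤ C_G(M)`.  If `l ≥ m + 2` then
`M ≤ G^(m) ≤ C_G(M)` and `M` is abelian, a contradiction.
3. So in a `d`-generator group the derived series of every normal subgroup stops after a bounded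
number of steps, the upper central series stops at `Z_k(G)`, and `G^(s)` is a perfect subgroup of
bounded index which lies in every subgroup of finite index (`Hyp2`).
4. A finitely generated perfect subgroup `P` centralises `Rad G`, by the three subgroups lemma; so
does the perfect subgroup `H^(s)` of a `d`-generator subgroup `H`, which bounds
`|H : C_H(Rad G)|` (`Hyp3`).  The remaining statements follow by considering `⟨H, x⟩`.
-/

set_option autoImplicit false

namespace Pool.Agent.Results.MP_544bd1_al.RadicalFive

open Pool.Agent.Helper140_E5
open scoped commutatorElement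

universe u

/-- `G` is locally finite: its finitely generated subgroups are finite. -/
def LocallyFinite (G : Type u) [Group G] : Prop :=
  ∀ S : Set G, S.Finite → Finite (Subgroup.closure S)

/-- The left-normed commutator `[x, g₁, …, g_k]` for the list `w = (g₁, …, g_k)`. -/
def comm {G : Type u} [Group G] (x : G) (w : List G) : G := w.foldl (fun a g => ⁅a, g⁆) x

/-- `x` is locally hypercentral: for every finitely generated subgroup `H` there is a `k` with
`[x, g₁, …, g_k] = 1` for all `g₁, …, g_k ∈ H`. -/
def LocallyHypercentral {G : Type u} [Group G] (x : G) : Prop :=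
  ∀ S : Set G, S.Finite → ∃ k : ℕ, ∀ w : List G,
    (∀ g ∈ w, g ∈ Subgroup.closure S) → w.length = k → comm x w = 1

theorem locallyHypercentral_one {G : Type u} [Group G] : LocallyHypercentral (1 : G) := LHC.one

theorem locallyHypercentral_mul {G : Type u} [Group G] {x y : G} (hx : LocallyHypercentral x)
    (hy : LocallyHypercentral y) : LocallyHypercentral (x * y) := LHC.mul hx hy

theorem locallyHypercentral_inv {G : Type u} [Group G] {x : G} (hx : LocallyHypercentral x) :
    LocallyHypercentral x⁻¹ := LHC.inv hx

/-- The subgroup of the locally hypercentral elements of `G`. -/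
def Radical (G : Type u) [Group G] : Subgroup G where
  carrier := {x | LocallyHypercentral x}
  one_mem' := locallyHypercentral_one
  mul_mem' := locallyHypercentral_mul
  inv_mem' := locallyHypercentral_inv

instance radical_normal (G : Type u) [Group G] : (Radical G).Normal :=
  (Rad_normal : (Rad G).Normal)

/-- `N` is hypoabelian: it has no perfect subgroup other than `1`. -/
def Hypoabelian {G : Type u} [Group G] (N : Subgroup G) : Prop :=
  ∀ Q : Subgroup G, Q ≤ N → ⁅Q, Q⁆ = Q → Q = ⊥

/-- (1) For each `d` there are `k`, `m` such that for every group `G` of exponent `5` and every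
subgroup `H = ⟨a₁, …, a_d⟩` of `G`: `[x, g₁, …, g_k] = 1` for all `x ∈ Rad G` and `g_i ∈ H`, the
centraliser of `Rad G` in `H` has index at most `m` in `H`, and `Rad G = Z_k(G)` if `H = G`.
(2) Let `G` have exponent `5`. (a) Every hypoabelian (in particular every residually soluble) normal
subgroup of `G` lies in `Rad G`. (b) `Rad (G / Rad G) = 1`. (c) `Rad G` is locally finite. (d)
`G / C_G(Rad G)` is locally finite, and `G` is locally finite if (and only if) `C_G(Rad G)` is. (e)
Every minimal normal subgroup of `G` in `Rad G` is central. (f) `[N, P ^ G]` is perfect for every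
normal subgroup `N` and every finitely generated perfect subgroup `P`. -/
theorem result :
    (∀ d : ℕ, ∃ k m : ℕ, ∀ (G : Type u) [Group G] (a : Fin d → G), (∀ x : G, x ^ 5 = 1) →
      (∀ x ∈ Radical G, ∀ w : List G, (∀ g ∈ w, g ∈ Subgroup.closure (Set.range a)) →
        w.length = k → comm x w = 1) ∧
      (Subgroup.centralizer (Radical G : Set G)).relIndex (Subgroup.closure (Set.range a)) ≠ 0 ∧
      (Subgroup.centralizer (Radical G : Set G)).relIndex (Subgroup.closure (Set.range a)) ≤ m ∧
      (Subgroup.closure (Set.range a) = ⊤ → Radical G = Subgroup.upperCentralSeries G k)) ∧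
    ∀ (G : Type u) [Group G], (∀ x : G, x ^ 5 = 1) →
      (∀ N : Subgroup G, N.Normal → Hypoabelian N → N ≤ Radical G) ∧
      Radical (G ⧸ Radical G) = ⊥ ∧
      LocallyFinite (Radical G) ∧
      LocallyFinite (G ⧸ Subgroup.centralizer (Radical G : Set G)) ∧
      (LocallyFinite (Subgroup.centralizer (Radical G : Set G)) → LocallyFinite G) ∧
      (∀ N : Subgroup G, N.Normal → N ≤ Radical G →
        (∀ L : Subgroup G, L.Normal → L ≤ N → L = ⊥ ∨ L = N) → N ≤ Subgroup.center G) ∧
      ∀ (N : Subgroup G) (S : Set G), N.Normal → S.Finite →
        ⁅Subgroup.closure S, Subgroup.closure S⁆ = Subgroup.closure S →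
        ⁅⁅N, Subgroup.normalClosure S⁆, ⁅N, Subgroup.normalClosure S⁆⁆ =
          ⁅N, Subgroup.normalClosure S⁆ := by
  refine ⟨rad_all.{u}, fun G _ h5 => ⟨fun N hN hyp => hyp_rad h5 hN hyp, rad_quot h5, rad_lf h5,
    (rad_lfq h5).lf, lf_crit' (rad_lfq h5), fun N hN hR hmin => min_rad hN hR hmin, ?_⟩⟩
  intro N S hN hS hP
  exact perf_comm h5 N hS hP

end Pool.Agent.Results.MP_544bd1_al.RadicalFive
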