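import Pool.Agent.Helper140_E5.Hyp4

/-!
# Groups of units with `(h - 1) ^ 4 = 0` in characteristic five are locally finite

A group `H` acting on an abelian group `V` makes `V ⋊ H` a group of exponent `5` if and only if `H`
has exponent `5`, `5 V = 0` and `(h - 1) ^ 4` annihilates `V` for all `h ∈ H`.  So the result says
exactly that finitely generated groups of exponent `5` which act on an abelian group with a split
extension of exponent `5` act as finite groups of bounded order, and nilpotently.  (With
`(h - 1) ^ 5 = 0` instead of `(h - 1) ^ 4 = 0` the statement would be equivalent to `5 ∈ 𝓛`.)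

Outline.  1. Two generators.  Let `x, y` act on `V`.  If some `v ≠ 0` is fixed by `x`, the module
generated by `v` is finite; this is a linear coset enumeration with 344 nodes, recorded as a table
and checked by the kernel (`Chk`, `DatA`, `OkA`, soundness in `Snd`, `Snd2`).  Since `x - 1` is
nilpotent there is always such a `v`, so two-generator groups are finite (`Act`, `UFin`).  A second
table gives `([y, x, x] - 1) ^ 2 = 0` if `(x - 1) ^ 3 = 0`.
2. Let the ring `R` spanned by `E` be semiprime.  Let `(c - 1) ^ 2 = 0` and `P = c - 1`.  The
linearised identity for four elements shows that one may assume `P Q P = 0` for all conjugates `Q`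
of `P`; then products of conjugates of `P` with a repeated factor vanish, so `c` and any finite
subgroup of `E` generate a finite group, and a lemma on the finite groups `⟨c, g, h⟩` of the earlier
result `ThreeGeneratorsFive` leads to `c = 1` (`Quad`, `QuadA`, `Lst`, `SanF`, `SanT`).  With the
second table `c = 1` follows from `(c - 1) ^ 3 = 0`, and then also if `c` commutes with its
conjugates (`Cube`).  In a finite two-generator subgroup of `E` the terms of the upper central
series are shown by induction to consist of elements `u` with `[u, h, h] = 1`: the element
`s = [u, h, h]` commutes with `u` and `h` by a calculation in groups (`Cen`), so `(s - 1) ^ 3 = 0`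
and `s = 1`.  So `[y, x, x] = 1` for all `x, y ∈ E`, elements commute with their conjugates, and
`E = 1` (`SP`).
3. In general, if the products of `n` elements `s - 1`, `s` a generator, do not vanish for any `n`,
there is by Zorn's lemma an ideal which is maximal among the ideals not containing all such
products for any `n`; the quotient is semiprime, a contradiction (`Zrn`).
4. The universal ring with these properties is finite for each number of generators (`Uf`).
-/

set_option autoImplicit false

namespace Pool.Agent.Results.MP_544bd1_al.UnipotentFive

open Pool.Agent.Helper140_E5

universe u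

/-- For each `d` there are `k`, `m` with the following property.  Let `R` be an associative ring with
`5 = 0` and let `H = ⟨a₁, …, a_d⟩` be a group of units of `R` with `(h - 1) ^ 4 = 0` for all `h ∈ H`.
Then `(h₁ - 1) ⋯ (h_k - 1) = 0` for all `h₁, …, h_k ∈ H`, and `H` is finite of order at most `m`. -/
theorem result : ∀ d : ℕ, ∃ k m : ℕ, ∀ (R : Type u) [Ring R] (a : Fin d → Rˣ), (5 : R) = 0 →
    (∀ h ∈ Subgroup.closure (Set.range a), ((h : R) - 1) ^ 4 = 0) →
    (∀ w : List Rˣ, (∀ h ∈ w, h ∈ Subgroup.closure (Set.range a)) → w.length = k →
      (w.map fun h : Rˣ => (h : R) - 1).prod = 0) ∧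
    Finite (Subgroup.closure (Set.range a)) ∧
    Nat.card (Subgroup.closure (Set.range a)) ≤ m :=
  ring_unif.{u}

end Pool.Agent.Results.MP_544bd1_al.UnipotentFive
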